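import Mathlib

namespace Pool.Agent.Lib.MP_52d0c2_ag

open MvPolynomial

variable {n : ℕ} (pa : Fin n → Finset (Fin n)) (κ : Fin n → ℕ)

/-- Joint states `u`; they index the variables `x_u`. -/
abbrev State : Type := (i : Fin n) → Fin (κ i)

/-- Indices `(j, k, a)` of the parameters `θ_{j,k,a}`. -/
abbrev Param : Type := Σ j : Fin n, Fin (κ j) × ((i : pa j) → Fin (κ i))

/-- The ideal `J` of `ℝ[Θ, z]`; the variable `none` is `z` and `some (j,k,a)` is `θ_{j,k,a}`. -/
noncomputable def sumIdeal : Ideal (MvPolynomial (Option (Param pa κ)) ℝ) :=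
  Ideal.span {f | ∃ (j : Fin n) (a : (i : pa j) → Fin (κ i)),
    f = (∑ k : Fin (κ j), X (some ⟨j, k, a⟩)) - X none}

/-- The map `x_u ↦ ∏_j θ_{j, u_j, u_{Pa(j)}}` into `ℝ[Θ, z] / J`. -/
noncomputable def phiBar :
    MvPolynomial (State κ) ℝ →ₐ[ℝ] (MvPolynomial (Option (Param pa κ)) ℝ ⧸ sumIdeal pa κ) :=
  aeval fun u => Ideal.Quotient.mk (sumIdeal pa κ)
    (∏ j : Fin n, X (some ⟨j, u j, fun i => u i⟩))

/-- The ideal `P_G`. -/
noncomputable def netIdeal : Ideal (MvPolynomial (State κ) ℝ) :=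
  RingHom.ker (phiBar pa κ)

/-- A prime ideal generated by binomials `x^a - x^b`. -/
def IsToricIdeal {σ : Type} (I : Ideal (MvPolynomial σ ℝ)) : Prop :=
  I.IsPrime ∧ ∃ S : Set (MvPolynomial σ ℝ),
    (∀ f ∈ S, ∃ a b : σ →₀ ℕ, f = monomial a 1 - monomial b 1) ∧ I = Ideal.span S

/-- `P_G` becomes toric after an invertible linear change of variables, that is, an algebra
automorphism sending every variable to a linear form. -/
def IsToricNet : Prop :=
  ∃ e : MvPolynomial (State κ) ℝ ≃ₐ[ℝ] MvPolynomial (State κ) ℝ,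
    (∀ u, (e (X u)).IsHomogeneous 1) ∧ IsToricIdeal ((netIdeal pa κ).map e)

/-- The subgraph induced on the non-sinks is perfect: two distinct parents (they are non-sinks)
of a non-sink `j` are adjacent. -/
def NonSinkPerfect : Prop :=
  ∀ j : Fin n, (∃ l, j ∈ pa l) → ∀ i ∈ pa j, ∀ i' ∈ pa j, i ≠ i' → i ∈ pa i' ∨ i' ∈ pa i

end Pool.Agent.Lib.MP_52d0c2_ag
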