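import Pool.Agent.Lib.MP_52d0c2_ag.General

namespace Pool.Agent.Lib.MP_52d0c2_ag

open MvPolynomial

/-- parents: `0 → 2 ← 1`, `0,1,2,3 → 4`, `0 → 5` -/
def pa6 : Fin 6 → Finset (Fin 6) := ![∅, ∅, {0, 1}, ∅, {0, 1, 2, 3}, {0}]

abbrev k6 : Fin 6 → ℕ := fun _ => 2

abbrev U6 : Type := Fin 6 → Fin 2

abbrev Q6 : Type := MvPolynomial (Option (Param pa6 k6)) ℝ ⧸ sumIdeal pa6 k6

noncomputable def th (j : Fin 6) (k : Fin 2) (u : U6) : Q6 :=
  Ideal.Quotient.mk (sumIdeal pa6 k6) (X (some ⟨j, k, fun i => u i⟩))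

noncomputable def zz : Q6 := Ideal.Quotient.mk (sumIdeal pa6 k6) (X none)

theorem th_sum (j : Fin 6) (u : U6) : th j 1 u = zz - th j 0 u := by
  have h : (∑ k : Fin (k6 j), X (some ⟨j, k, fun i => u i⟩)) - X none ∈ sumIdeal pa6 k6 :=
    Ideal.subset_span ⟨j, fun i => u i, rfl⟩
  have h2 := Ideal.Quotient.eq_zero_iff_mem.2 h
  rw [Fin.sum_univ_two, map_sub, map_add] at h2
  unfold th zz
  linear_combination h2

theorem th_congr (j : Fin 6) (k : Fin 2) (u v : U6) (h : ∀ i ∈ pa6 j, u i = v i) :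
    th j k u = th j k v := by
  unfold th
  have : (fun i : pa6 j => u i) = fun i : pa6 j => v i := funext fun i => h i.1 i.2
  rw [this]

noncomputable def ta (a : Fin 2) : Q6 := th 0 a 0
noncomputable def tb (b : Fin 2) : Q6 := th 1 b 0
noncomputable def tc (c a b : Fin 2) : Q6 := th 2 c ![a, b, 0, 0, 0, 0]
noncomputable def te (e : Fin 2) : Q6 := th 3 e 0
noncomputable def td (d a b c e : Fin 2) : Q6 := th 4 d ![a, b, c, e, 0, 0]
noncomputable def tf (f a : Fin 2) : Q6 := th 5 f ![a, 0, 0, 0, 0, 0]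

theorem phi_X (u : U6) : phiBar pa6 k6 (X u) =
    ta (u 0) * tb (u 1) * tc (u 2) (u 0) (u 1) * te (u 3) * td (u 4) (u 0) (u 1) (u 2) (u 3) *
      tf (u 5) (u 0) := by
  have h0 : phiBar pa6 k6 (X u) = ∏ j : Fin 6, th j (u j) u := by
    unfold phiBar th
    rw [aeval_X, map_prod]
  rw [h0, Fin.prod_univ_six]
  unfold ta tb tc te td tf
  rw [th_congr 0 (u 0) u 0 (by simp [pa6]), th_congr 1 (u 1) u 0 (by simp [pa6]),
    th_congr 2 (u 2) u ![u 0, u 1, 0, 0, 0, 0] (by simp [pa6]),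
    th_congr 3 (u 3) u 0 (by simp [pa6]),
    th_congr 4 (u 4) u ![u 0, u 1, u 2, u 3, 0, 0] (by simp [pa6]),
    th_congr 5 (u 5) u ![u 0, 0, 0, 0, 0, 0] (by simp [pa6])]

/-- parameters of the monomial map -/
inductive Par : Type
  | al (a : Fin 2)
  | be (b : Fin 2)
  | ep (e : Fin 2)
  | et (a b c e : Fin 2)
  | ga (a b : Fin 2)
  | ph (a : Fin 2)
  | ze

noncomputable def mu : MvPolynomial U6 ℝ →ₐ[ℝ] MvPolynomial Par ℝ :=
  aeval fun v => X (.al (v 0)) * X (.be (v 1)) * X (.ep (v 3)) *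
    (if v 4 = 0 then X (.et (v 0) (v 1) (v 2) (v 3))
      else if v 2 = 0 then X (.ga (v 0) (v 1)) * X .ze else X .ze * X .ze) *
    (if v 5 = 0 then X (.ph (v 0)) else X .ze)

theorem mu_isMon (v : U6) : IsMon (mu (X v)) := by
  unfold mu
  rw [aeval_X]
  refine (((IsMon.X _).mul (IsMon.X _)).mul (IsMon.X _)).mul ?_ |>.mul ?_
  · split_ifs
    · exact IsMon.X _
    · exact (IsMon.X _).mul (IsMon.X _)
    · exact (IsMon.X _).mul (IsMon.X _)
  · split_ifs <;> exact IsMon.X _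

noncomputable def chi : MvPolynomial Par ℝ →ₐ[ℝ] Q6 :=
  aeval fun
    | .al a => ta a
    | .be b => tb b
    | .ep e => te e
    | .et a b c e => tc c a b * td 0 a b c e
    | .ga a b => tc 0 a b
    | .ph a => tf 0 a
    | .ze => zz

noncomputable def eC : MvPolynomial U6 ℝ ≃ₐ[ℝ] MvPolynomial U6 ℝ :=
  elem (fun u => u 4 = 1 ∧ u 2 = 1) (fun u => Function.update u 2 0) (by simp)

noncomputable def eD : MvPolynomial U6 ℝ ≃ₐ[ℝ] MvPolynomial U6 ℝ :=
  elem (fun u => u 4 = 1) (fun u => Function.update u 4 0) (by simp)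

noncomputable def eF : MvPolynomial U6 ℝ ≃ₐ[ℝ] MvPolynomial U6 ℝ :=
  elem (fun u => u 5 = 1) (fun u => Function.update u 5 0) (by simp)

noncomputable def eL : MvPolynomial U6 ℝ ≃ₐ[ℝ] MvPolynomial U6 ℝ := (eC.trans eD).trans eF

theorem isLin_eL_symm : IsLin eL.symm := by
  have : eL.symm = eF.symm.trans (eD.symm.trans eC.symm) := rfl
  rw [this]
  exact (isLin_elem_symm _ _ _).trans ((isLin_elem_symm _ _ _).trans (isLin_elem_symm _ _ _))

theorem phi_eL (v : U6) : phiBar pa6 k6 (eL (X v)) = chi (mu (X v)) := by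
  have two : ∀ x : Fin 2, x = 0 ∨ x = 1 := by decide
  have hc : ∀ a b, tc 1 a b = zz - tc 0 a b := fun a b => th_sum _ _
  have hd : ∀ a b c e, td 1 a b c e = zz - td 0 a b c e := fun a b c e => th_sum _ _
  have hf : ∀ a, tf 1 a = zz - tf 0 a := fun a => th_sum _ _
  rcases two (v 2) with h2 | h2 <;> rcases two (v 4) with h4 | h4 <;>
    rcases two (v 5) with h5 | h5 <;>
    simp [eL, eC, eD, eF, elem_X, phi_X, mu, chi, h2, h4, h5, hc, hd, hf] <;> ring

section Psi

variable {K : Type} [Field K] [Algebra ℝ K] (x : Par → K) (Z : K)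

noncomputable def cC (c a b : Fin 2) : K :=
  if c = 0 then Z * x (.ga a b) / x .ze else Z - Z * x (.ga a b) / x .ze

noncomputable def p0 (j : Fin 6) (u : U6) : K :=
  ![Z * x (.al 0) / (x (.al 0) + x (.al 1)), Z * x (.be 0) / (x (.be 0) + x (.be 1)),
    Z * x (.ga (u 0) (u 1)) / x .ze, Z * x (.ep 0) / (x (.ep 0) + x (.ep 1)),
    Z ^ 2 * x (.et (u 0) (u 1) (u 2) (u 3)) / (x .ze ^ 2 * cC x Z (u 2) (u 0) (u 1)),
    Z * x (.ph (u 0)) / x .ze] j

def extd (j : Fin 6) (a : (i : pa6 j) → Fin (k6 i)) : U6 :=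
  fun i => if h : i ∈ pa6 j then a ⟨i, h⟩ else 0

noncomputable def gval : Option (Param pa6 k6) → K
  | none => Z
  | some ⟨j, k, a⟩ => if k = 0 then p0 x Z j (extd j a) else Z - p0 x Z j (extd j a)

noncomputable def psi : Q6 →ₐ[ℝ] K :=
  Ideal.Quotient.liftₐ (sumIdeal pa6 k6) (aeval (gval x Z)) (by
    intro f hf
    have : sumIdeal pa6 k6 ≤ RingHom.ker (aeval (gval x Z) : MvPolynomial _ ℝ →ₐ[ℝ] K) := by
      unfold sumIdeal
      rw [Ideal.span_le]
      rintro f ⟨j, a, rfl⟩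
      simp [Fin.sum_univ_two, gval]
    exact this hf)

theorem psi_mk (f : MvPolynomial (Option (Param pa6 k6)) ℝ) :
    psi x Z (Ideal.Quotient.mk (sumIdeal pa6 k6) f) = aeval (gval x Z) f := rfl

theorem psi_zz : psi x Z zz = Z := by
  rw [zz, psi_mk, aeval_X, gval]

theorem psi_th (j : Fin 6) (k : Fin 2) (u : U6) :
    psi x Z (th j k u) = if k = 0 then p0 x Z j u else Z - p0 x Z j u := by
  have h : p0 x Z j (extd j fun i => u i) = p0 x Z j u := by
    fin_cases j <;> simp [p0, extd, pa6]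
  rw [th, psi_mk, aeval_X, gval, h]

theorem psi_chi_mu (ha : x (.al 0) + x (.al 1) ≠ 0) (hb : x (.be 0) + x (.be 1) ≠ 0)
    (he : x (.ep 0) + x (.ep 1) ≠ 0) (hz : x .ze ≠ 0) (hg : ∀ a b, x (.ga a b) ≠ 0)
    (hg' : ∀ a b, x .ze - x (.ga a b) ≠ 0)
    (hZ : Z ^ 6 = (x (.al 0) + x (.al 1)) * (x (.be 0) + x (.be 1)) * (x (.ep 0) + x (.ep 1)) *
      x .ze ^ 3) (v : U6) :
    psi x Z (chi (mu (X v))) = aeval x (mu (X v)) := by
  have two : ∀ x : Fin 2, x = 0 ∨ x = 1 := by decide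
  have hZ0 : Z ≠ 0 := by
    rintro rfl
    exact (mul_ne_zero (mul_ne_zero (mul_ne_zero ha hb) he) (pow_ne_zero 3 hz)) (by simpa using hZ.symm)
  have h1 : ∀ a, psi x Z (ta a) = Z * x (.al a) / (x (.al 0) + x (.al 1)) := by
    intro a
    rcases two a with rfl | rfl
    · simp [ta, psi_th, p0]
    · simp only [ta, psi_th, p0]; simp; field_simp; ring
  have h2 : ∀ a, psi x Z (tb a) = Z * x (.be a) / (x (.be 0) + x (.be 1)) := by
    intro a
    rcases two a with rfl | rfl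
    · simp [tb, psi_th, p0]
    · simp only [tb, psi_th, p0]; simp; field_simp; ring
  have h3 : ∀ a, psi x Z (te a) = Z * x (.ep a) / (x (.ep 0) + x (.ep 1)) := by
    intro a
    rcases two a with rfl | rfl
    · simp [te, psi_th, p0]
    · simp only [te, psi_th, p0]; simp; field_simp; ring
  have h4 : ∀ c a b, psi x Z (tc c a b) = cC x Z c a b := by
    intro c a b
    simp [tc, psi_th, p0, cC]
  have hC : ∀ c a b, cC x Z c a b ≠ 0 := by
    intro c a b
    unfold cC
    split_ifs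
    · exact div_ne_zero (mul_ne_zero hZ0 (hg a b)) hz
    · have : Z - Z * x (.ga a b) / x .ze = Z * (x .ze - x (.ga a b)) / x .ze := by field_simp
      rw [this]
      exact div_ne_zero (mul_ne_zero hZ0 (hg' a b)) hz
  have h5 : ∀ a b c e, cC x Z c a b * psi x Z (td 0 a b c e) =
      Z ^ 2 * x (.et a b c e) / x .ze ^ 2 := by
    intro a b c e
    have := hC c a b
    simp only [td, psi_th, p0]; simp; field_simp
  have h6 : ∀ a, psi x Z (tf 0 a) = Z * x (.ph a) / x .ze := by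
    intro a
    simp [tf, psi_th, p0]
  have h7 : ∀ a b, cC x Z 0 a b = Z * x (.ga a b) / x .ze := fun a b => by simp [cC]
  rcases two (v 2) with e2 | e2 <;> rcases two (v 4) with e4 | e4 <;>
    rcases two (v 5) with e5 | e5 <;>
    simp only [mu, chi, aeval_X, e2, e4, e5, if_true, if_false, one_ne_zero, map_mul, h1, h2, h3,
      h4, h5, h6, psi_zz] <;> (try rw [h7]) <;> field_simp <;> rw [hZ] <;> ring

end Psi

theorem ker_eq (f : MvPolynomial U6 ℝ) : phiBar pa6 k6 (eL f) = 0 ↔ mu f = 0 := by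
  have hA : (phiBar pa6 k6).comp (eL : MvPolynomial U6 ℝ →ₐ[ℝ] MvPolynomial U6 ℝ) =
      chi.comp mu := by
    ext1 v
    simpa using phi_eL v
  have hA' : phiBar pa6 k6 (eL f) = chi (mu f) := by simpa using AlgHom.congr_fun hA f
  rw [hA']
  refine ⟨fun h => ?_, fun h => by rw [h, map_zero]⟩
  let K := AlgebraicClosure (FractionRing (MvPolynomial Par ℝ))
  let ι : MvPolynomial Par ℝ →ₐ[ℝ] K := IsScalarTower.toAlgHom ℝ _ K
  have hι : Function.Injective ι := by
    have h1 : (ι : MvPolynomial Par ℝ → K) =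
        algebraMap (FractionRing (MvPolynomial Par ℝ)) K ∘
          algebraMap (MvPolynomial Par ℝ) (FractionRing (MvPolynomial Par ℝ)) := by
      funext p
      exact IsScalarTower.algebraMap_apply _ _ _ p
    rw [h1]
    exact (algebraMap (FractionRing (MvPolynomial Par ℝ)) K).injective.comp
      (IsFractionRing.injective _ _)
  let x : Par → K := fun i => ι (X i)
  have hx : (aeval x : MvPolynomial Par ℝ →ₐ[ℝ] K) = ι := by ext1 i; simp [x]
  have ne : ∀ p : MvPolynomial Par ℝ, ∀ y : Par → ℝ, eval y p ≠ 0 → ι p ≠ 0 := by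
    intro p y hp h0
    have : p = 0 := hι (by rw [h0, map_zero])
    rw [this] at hp
    simp at hp
  obtain ⟨Z, hZ⟩ := IsAlgClosed.exists_pow_nat_eq ((x (.al 0) + x (.al 1)) *
    (x (.be 0) + x (.be 1)) * (x (.ep 0) + x (.ep 1)) * x .ze ^ 3) (n := 6) (by norm_num)
  have hB : (psi x Z).comp (chi.comp mu) = ι.comp mu := by
    ext1 v
    have := psi_chi_mu x Z
      (by have := ne (X (.al 0) + X (.al 1)) (fun _ => 1) (by simp); rwa [map_add] at this)
      (by have := ne (X (.be 0) + X (.be 1)) (fun _ => 1) (by simp); rwa [map_add] at this)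
      (by have := ne (X (.ep 0) + X (.ep 1)) (fun _ => 1) (by simp); rwa [map_add] at this)
      (ne (X .ze) (fun _ => 1) (by simp))
      (fun a b => ne (X (.ga a b)) (fun _ => 1) (by simp))
      (fun a b => by
        have := ne (X .ze - X (.ga a b)) (fun | .ze => 1 | _ => 0) (by simp)
        rwa [map_sub] at this)
      hZ v
    rw [hx] at this
    simpa using this
  have h1 := AlgHom.congr_fun hB f
  simp only [AlgHom.comp_apply] at h1
  rw [h, map_zero] at h1
  exact hι (by rw [← h1, map_zero])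

theorem isToricNet6 : IsToricNet pa6 k6 := by
  refine ⟨eL.symm, isLin_eL_symm, ?_⟩
  have : (netIdeal pa6 k6).map eL.symm = RingHom.ker mu := by
    ext f
    rw [Ideal.mem_map_of_equiv, RingHom.mem_ker, ← ker_eq]
    constructor
    · rintro ⟨g, hg, rfl⟩
      simpa [netIdeal] using hg
    · intro h
      exact ⟨eL f, h, by simp⟩
  rw [this]
  exact isToricIdeal_ker mu mu_isMon

end Pool.Agent.Lib.MP_52d0c2_ag
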