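import Pool.Agent.Lib.MP_52d0c2_ag.Defs

namespace Pool.Agent.Lib.MP_52d0c2_ag

open MvPolynomial

/-- monic monomials -/
def IsMon {τ : Type} (p : MvPolynomial τ ℝ) : Prop := ∃ w, p = monomial w 1

theorem IsMon.one {τ : Type} : IsMon (1 : MvPolynomial τ ℝ) := ⟨0, rfl⟩

theorem IsMon.X {τ : Type} (i : τ) : IsMon (X i : MvPolynomial τ ℝ) := ⟨_, rfl⟩

theorem IsMon.mul {τ : Type} {p q : MvPolynomial τ ℝ} (hp : IsMon p) (hq : IsMon q) :
    IsMon (p * q) := by
  obtain ⟨a, rfl⟩ := hp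
  obtain ⟨b, rfl⟩ := hq
  exact ⟨a + b, by rw [monomial_mul, one_mul]⟩

theorem IsMon.pow {τ : Type} {p : MvPolynomial τ ℝ} (hp : IsMon p) (m : ℕ) : IsMon (p ^ m) := by
  induction m with
  | zero => simpa using IsMon.one
  | succ m ih => rw [pow_succ]; exact ih.mul hp

theorem isMon_map {σ τ : Type} (μ : MvPolynomial σ ℝ →ₐ[ℝ] MvPolynomial τ ℝ)
    (h : ∀ u, IsMon (μ (X u))) (a : σ →₀ ℕ) : IsMon (μ (monomial a 1)) := by
  rw [monomial_eq, C_1, one_mul, Finsupp.prod, map_prod]
  refine Finset.prod_induction _ IsMon (fun _ _ => IsMon.mul) IsMon.one ?_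
  intro i _
  rw [map_pow]
  exact (h i).pow _

theorem isToricIdeal_ker {σ τ : Type} (μ : MvPolynomial σ ℝ →ₐ[ℝ] MvPolynomial τ ℝ)
    (h : ∀ u, IsMon (μ (X u))) : IsToricIdeal (RingHom.ker μ) := by
  classical
  refine ⟨RingHom.ker_isPrime _, ?_⟩
  choose W hW using isMon_map μ h
  set S : Set (MvPolynomial σ ℝ) :=
    {f | ∃ a b : σ →₀ ℕ, W a = W b ∧ f = monomial a 1 - monomial b 1} with hS
  refine ⟨S, fun f ⟨a, b, _, hf⟩ => ⟨a, b, hf⟩, le_antisymm ?_ ?_⟩
  · let s : MvPolynomial τ ℝ →ₗ[ℝ] (MvPolynomial σ ℝ ⧸ Ideal.span S) :=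
      (basisMonomials τ ℝ).constr ℝ fun m =>
        Ideal.Quotient.mk (Ideal.span S) (monomial (Function.invFun W m) 1)
    have hs : s ∘ₗ μ.toLinearMap = (Ideal.Quotient.mkₐ ℝ (Ideal.span S)).toLinearMap := by
      refine (basisMonomials σ ℝ).ext fun a => ?_
      simp only [coe_basisMonomials, LinearMap.comp_apply, AlgHom.toLinearMap_apply,
        Ideal.Quotient.mkₐ_eq_mk]
      rw [hW a]
      have : s (monomial (W a) 1) =
          Ideal.Quotient.mk (Ideal.span S) (monomial (Function.invFun W (W a)) 1) := by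
        have := (basisMonomials τ ℝ).constr_basis ℝ (fun m =>
          Ideal.Quotient.mk (Ideal.span S) (monomial (Function.invFun W m) 1)) (W a)
        simpa using this
      rw [this, Ideal.Quotient.eq]
      exact Ideal.subset_span ⟨_, _, Function.invFun_eq ⟨a, rfl⟩, rfl⟩
    intro f hf
    have h1 := LinearMap.congr_fun hs f
    simp only [LinearMap.comp_apply, AlgHom.toLinearMap_apply, Ideal.Quotient.mkₐ_eq_mk] at h1
    rw [RingHom.mem_ker] at hf
    rw [hf, map_zero] at h1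
    exact Ideal.Quotient.eq_zero_iff_mem.1 h1.symm
  · rw [Ideal.span_le]
    rintro f ⟨a, b, hab, rfl⟩
    simp only [SetLike.mem_coe, RingHom.mem_ker, map_sub]
    rw [hW a, hW b, hab, sub_self]

/-- An elementary linear change of variables. -/
noncomputable def elem {σ : Type} (p : σ → Prop) [DecidablePred p] (r : σ → σ)
    (h : ∀ u, p u → ¬ p (r u)) : MvPolynomial σ ℝ ≃ₐ[ℝ] MvPolynomial σ ℝ :=
  AlgEquiv.ofAlgHom (aeval fun u => if p u then X u + X (r u) else X u)
    (aeval fun u => if p u then X u - X (r u) else X u)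
    (by
      ext1 u
      by_cases hu : p u
      · simp [hu, h u hu]
      · simp [hu])
    (by
      ext1 u
      by_cases hu : p u
      · simp [hu, h u hu]
      · simp [hu])

theorem elem_X {σ : Type} (p : σ → Prop) [DecidablePred p] (r : σ → σ)
    (h : ∀ u, p u → ¬ p (r u)) (u : σ) :
    elem p r h (X u) = if p u then X u + X (r u) else X u := by
  simp [elem]

/-- sends variables to linear forms -/
def IsLin {σ : Type} (e : MvPolynomial σ ℝ ≃ₐ[ℝ] MvPolynomial σ ℝ) : Prop :=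
  ∀ u, (e (X u)).IsHomogeneous 1

theorem isLin_elem_symm {σ : Type} (p : σ → Prop) [DecidablePred p] (r : σ → σ)
    (h : ∀ u, p u → ¬ p (r u)) : IsLin (elem p r h).symm := by
  intro u
  have : (elem p r h).symm (X u) = if p u then X u - X (r u) else X u := by
    simp [elem]
  rw [this]
  split_ifs
  · exact (isHomogeneous_X _ _).sub (isHomogeneous_X _ _)
  · exact isHomogeneous_X _ _

theorem IsLin.trans {σ : Type} {e e' : MvPolynomial σ ℝ ≃ₐ[ℝ] MvPolynomial σ ℝ}
    (h : IsLin e) (h' : IsLin e') : IsLin (e.trans e') := by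
  intro u
  have h1 := (h u).aeval (fun v => e' (X v)) h'
  have h2 : (aeval fun v => e' (X v)) = (e' : MvPolynomial σ ℝ →ₐ[ℝ] MvPolynomial σ ℝ) := by
    ext1 v; simp
  rw [h2] at h1
  simpa using h1

end Pool.Agent.Lib.MP_52d0c2_ag
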